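import Pool.Agent.J4H64.MP.Def

set_option autoImplicit false

/-! Piece QRES of project MP: from devices of cost `4 B` to circuits of cost `B` and formulas with
at most `B` NOT gates. -/

namespace Pool.Agent.J4H23.MP

open Finset Filter Pool.Agent.J4H64.MC Pool.Agent.J4H64.MN Pool.Agent.J4H64.MO Pool.Agent.J4H64.MP

/-- eventually `4 n^η ≤ n^η1` -/
theorem ev4 {η η1 : ℝ} (h : η < η1) : ∀ᶠ n : ℕ in atTop, 4 * (n : ℝ) ^ η ≤ (n : ℝ) ^ η1 := by
  have h1 : Tendsto (fun n : ℕ => (n : ℝ) ^ (η1 - η)) atTop atTop :=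
    (tendsto_rpow_atTop (by linarith)).comp tendsto_natCast_atTop_atTop
  filter_upwards [h1.eventually_ge_atTop 4, eventually_ge_atTop 1] with n hn hn1
  have hp : (0 : ℝ) < n := by exact_mod_cast hn1
  have : (n : ℝ) ^ η1 = (n : ℝ) ^ (η1 - η) * (n : ℝ) ^ η := by
    rw [← Real.rpow_add hp]; congr 1; ring
  rw [this]
  exact mul_le_mul_of_nonneg_right hn (Real.rpow_nonneg hp.le _)

theorem quarter {k : ℕ} {x : ℝ} (hx : 0 ≤ x) :
    x ^ (1 / ((k : ℝ) + 1)) / 4 ≤ (x / 4) ^ (1 / ((k : ℝ) + 1)) := by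
  rw [Real.div_rpow hx (by norm_num)]
  have h1 : (4 : ℝ) ^ (1 / ((k : ℝ) + 1)) ≤ 4 := by
    have : (4 : ℝ) ^ (1 / ((k : ℝ) + 1)) ≤ (4 : ℝ) ^ (1 : ℝ) := by
      apply Real.rpow_le_rpow_of_exponent_le (by norm_num)
      rw [div_le_one (by positivity)]
      have : (0 : ℝ) ≤ k := Nat.cast_nonneg k
      linarith
    simpa using this
  have h2 : 0 < (4 : ℝ) ^ (1 / ((k : ℝ) + 1)) := by positivity
  exact div_le_div_of_nonneg_left (Real.rpow_nonneg hx _) h2 h1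

theorem expo {k : ℕ} {c : ℝ} (hc : 0 < c) {n : ℕ} (B : ℕ) :
    (2 : ℝ) ^ (c / 4 * ((n : ℝ) ^ k / B) ^ (1 / ((k : ℝ) + 1)) / Real.log n ^ 3) ≤
      (2 : ℝ) ^ (c * ((n : ℝ) ^ k / ((4 * B : ℕ) : ℝ)) ^ (1 / ((k : ℝ) + 1)) / Real.log n ^ 3) := by
  apply Real.rpow_le_rpow_of_exponent_le (by norm_num)
  have hl : 0 ≤ Real.log n := Real.log_natCast_nonneg n
  have h3 : 0 ≤ Real.log n ^ 3 := by positivity
  apply div_le_div_of_nonneg_right _ h3
  have e : (n : ℝ) ^ k / ((4 * B : ℕ) : ℝ) = (n : ℝ) ^ k / B / 4 := by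
    push_cast
    rw [div_div, mul_comm]
  rw [e]
  have := quarter (k := k) (x := (n : ℝ) ^ k / B) (by positivity)
  have h5 : c / 4 * ((n : ℝ) ^ k / B) ^ (1 / ((k : ℝ) + 1)) =
    c * (((n : ℝ) ^ k / B) ^ (1 / ((k : ℝ) + 1)) / 4) := by ring
  rw [h5]
  exact mul_le_mul_of_nonneg_left this hc.le

theorem t_QRES : S_QRES := by
  intro hD k hk γ hγ
  obtain ⟨c, hc, h⟩ := hD k hk γ hγ
  refine ⟨c / 4, by positivity, fun η hη => ?_⟩
  have h1 : η < (η + k) / 2 := by linarith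
  have h2 : (η + k) / 2 < k := by linarith
  filter_upwards [h ((η + k) / 2) h2, ev4 h1] with n hn hn4 B hB hBn
  have hB4 : 1 ≤ 4 * B := by omega
  have hBn4 : ((4 * B : ℕ) : ℝ) ≤ (n : ℝ) ^ ((η + k) / 2) := by
    push_cast
    linarith
  obtain ⟨Λ, hΛ, hΛ', D, hD2⟩ := hn (4 * B) hB4 hBn4
  refine ⟨Λ, hΛ, hΛ', D, fun C hC hm => ?_, fun F hF hm => ?_⟩
  · have hcost : (dev k).cost (Sum.inl C : (dev k).T n) (4 * B) := by
      obtain ⟨lvl, h3, h4⟩ := hC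
      exact ⟨lvl, h3, h4.trans (by omega)⟩
    exact hD2 (Sum.inl C) hcost (lt_of_lt_of_le hm (expo hc B))
  · have hcost : (dev k).cost (Sum.inr F : (dev k).T n) (4 * B) := by
      show 5 * F.nots + 2 ≤ 2 * (4 * B)
      omega
    exact hD2 (Sum.inr F) hcost (lt_of_lt_of_le hm (expo hc B))

end Pool.Agent.J4H23.MP
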